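import Pool.Agent.TH435.BF.Quad

/-!
# Flows with values in `Y_p`: identifications of cubic graphs bipartite up to three edges

`MGraph 3 ends`: loopless cubic multigraph on `Fin n` (edges `Fin m`) with at least three edges leaving
every odd vertex set (a bridgeless cubic graph).  The graph `G` in the statement arises from it by
identifying the vertices with the same value of `f`.
-/

set_option autoImplicit false

namespace Pool.Agent.Results.MP_65a8f1_co.NearlyBipartite

open H76FC Finset

open Classical in
/-- `φ` is a `Y_p`-flow of the graph with the edges `e : Fin m` and the vertices `w : W`, in which the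
ends of `e` are the values of `f` at the two elements of `ends e` : these are `3 p` flows with values
in the integers mod 2 (at every vertex `w` the sum over the incidences of edges with `w` is zero, so
that a loop counts twice) such that at every edge exactly `2 p` of them have the value `1`. -/
def IsYFlow {n m : ℕ} {W : Type} (ends : Fin m → Sym2 (Fin n)) (f : Fin n → W) (p : ℕ)
    (φ : Fin (3 * p) → Fin m → ZMod 2) : Prop :=
  (∀ i w, ∑ x ∈ univ.filter (fun x : Fin n × Fin m => f x.1 = w ∧ x.1 ∈ ends x.2), φ i x.2 = 0) ∧
    ∀ e, (univ.filter (fun i => φ i e = 1)).card = 2 * p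

/-- Let `G₀` be a bridgeless cubic multigraph which becomes bipartite after deleting at most three
edges, and let `G` arise from `G₀` by identifying vertices in any way (`f` maps a vertex to its class;
edges may become loops or parallel).  Then `G` has a `Y_p`-flow for every even `p`; in particular
for `p = 2`. -/
theorem result {n m : ℕ} (ends : Fin m → Sym2 (Fin n)) (hG : MGraph 3 ends)
    (T : Finset (Fin m)) (hT : T.card ≤ 3) (c : Fin n → Bool)
    (hc : ∀ e, e ∉ T → ∀ u v, ends e = s(u, v) → c u ≠ c v) {W : Type} (f : Fin n → W)
    (p : ℕ) (hp : Even p) : ∃ φ : Fin (3 * p) → Fin m → ZMod 2, IsYFlow ends f p φ := by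
  classical
  obtain ⟨q, rfl⟩ := hp
  obtain ⟨C, hC, h4⟩ := Pool.Agent.TH435.BF.quad ends hG T hT c hc f
  have hq : 3 * (q + q) = q * 6 := by ring
  refine ⟨fun i e => if e ∈ C (finProdFinEquiv.symm (Fin.cast hq i)).2 then 1 else 0,
    fun i w => ?_, fun e => ?_⟩
  · have h := hC (finProdFinEquiv.symm (Fin.cast hq i)).2 w
    rw [Set.ncard_eq_toFinset_card', Set.toFinset_ofPred] at h
    rw [← ZMod.natCast_eq_zero_iff_even] at h
    refine Eq.trans ?_ h
    rw [card_filter, Nat.cast_sum, sum_filter]
    refine sum_congr rfl fun x _ => ?_
    by_cases h1 : f x.1 = w <;> by_cases h2 : x.1 ∈ ends x.2 <;>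
      by_cases h3 : x.2 ∈ C (finProdFinEquiv.symm (Fin.cast hq i)).2 <;> simp [h1, h2, h3]
  · have h1 : (univ.filter (fun i : Fin (3 * (q + q)) =>
        (if e ∈ C (finProdFinEquiv.symm (Fin.cast hq i)).2 then (1 : ZMod 2) else 0) = 1)).card =
        ((univ : Finset (Fin q)) ×ˢ univ.filter (fun j : Fin 6 => e ∈ C j)).card := by
      refine card_bij (fun i _ => finProdFinEquiv.symm (Fin.cast hq i)) ?_ ?_ ?_
      · intro i hi
        rw [mem_filter] at hi
        rw [mem_product, mem_filter]
        refine ⟨mem_univ _, mem_univ _, ?_⟩
        by_contra hcon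
        have h2 := hi.2
        rw [if_neg hcon] at h2
        exact absurd h2 (by decide)
      · intro i _ j _ hij
        exact Fin.cast_injective hq (finProdFinEquiv.symm.injective hij)
      · intro b hb
        rw [mem_product, mem_filter] at hb
        refine ⟨Fin.cast hq.symm (finProdFinEquiv b), ?_, ?_⟩
        · rw [mem_filter]
          have h3 : Fin.cast hq (Fin.cast hq.symm (finProdFinEquiv b)) = finProdFinEquiv b := by
            ext; rfl
          rw [h3, Equiv.symm_apply_apply, if_pos hb.2.2]
          exact ⟨mem_univ _, rfl⟩
        · have h3 : Fin.cast hq (Fin.cast hq.symm (finProdFinEquiv b)) = finProdFinEquiv b := by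
            ext; rfl
          rw [h3, Equiv.symm_apply_apply]
    have h5 := h4 e
    rw [Set.ncard_eq_toFinset_card', Set.toFinset_ofPred] at h5
    rw [h1, card_product, h5, card_univ, Fintype.card_fin]
    ring

end Pool.Agent.Results.MP_65a8f1_co.NearlyBipartite
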