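import Pool.Agent.TH455.TFA.BF

set_option autoImplicit false

/-! # Flows with values in `Y_p`

A finite graph, loops and parallel edges allowed, has vertex set `V` and edge set `E`; the ends of
the edge `e` are `src e` and `dst e`. -/

namespace Pool.Agent.Results.MP_65a8f1_co.TreewidthFour

open Finset

/-- the simple graph in which two distinct vertices are adjacent if an edge in `F` joins them -/
def under {V E : Type} (src dst : E → V) (F : Set E) : SimpleGraph V where
  Adj x y := x ≠ y ∧ ∃ e ∈ F, (src e = x ∧ dst e = y) ∨ (src e = y ∧ dst e = x)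
  symm := ⟨fun _ _ h => ⟨h.1.symm, h.2.imp fun _ he => ⟨he.1, he.2.symm⟩⟩⟩
  loopless := ⟨fun _ h => h.1 rfl⟩

/-- the edge `e` is a bridge: its ends are not connected by the other edges -/
def IsBridge {V E : Type} (src dst : E → V) (e : E) : Prop :=
  ¬ (under src dst {e' | e' ≠ e}).Reachable (src e) (dst e)

/-- tree decomposition of the graph, with bags `bag i` for the nodes `i` of the tree `T` -/
def IsTreeDecomposition {V E ι : Type} (src dst : E → V) (T : SimpleGraph ι)
    (bag : ι → Finset V) : Prop :=
  T.IsTree ∧ (∀ v, ∃ i, v ∈ bag i) ∧ (∀ e, ∃ i, src e ∈ bag i ∧ dst e ∈ bag i) ∧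
    ∀ (i j : ι) (p : T.Walk i j), p.IsPath → ∀ k ∈ p.support, ∀ v, v ∈ bag i → v ∈ bag j →
      v ∈ bag k

/-- the treewidth is at most `k` -/
def TreewidthLE {V E : Type} (src dst : E → V) (k : ℕ) : Prop :=
  ∃ (ι : Type) (_ : Fintype ι) (T : SimpleGraph ι) (bag : ι → Finset V),
    IsTreeDecomposition src dst T bag ∧ ∀ i, (bag i).card ≤ k + 1

/-- `φ` is a `Y_p`-flow: `3 p` flows with values in the integers mod 2, such that at every edge
exactly `2 p` of them have the value `1`; a loop counts twice at its vertex -/
def IsYFlow {V E : Type} [DecidableEq V] [Fintype E] (src dst : E → V) (p : ℕ)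
    (φ : Fin (3 * p) → E → ZMod 2) : Prop :=
  (∀ i v, ∑ e, ((if src e = v then φ i e else 0) + (if dst e = v then φ i e else 0)) = 0) ∧
    ∀ e, (univ.filter (fun i => φ i e = 1)).card = 2 * p

/-- **Theorem.** A bridgeless graph of treewidth at most four has a `Y_p`-flow for every even
number `p`; in particular for `p = 2`. -/
theorem result (V E : Type) [Fintype V] [DecidableEq V] [Fintype E] [DecidableEq E]
    (src dst : E → V) (hB : ∀ e, ¬ IsBridge src dst e) (hT : TreewidthLE src dst 4)
    (p : ℕ) (hp : Even p) : ∃ φ : Fin (3 * p) → E → ZMod 2, IsYFlow src dst p φ := by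
  obtain ⟨q, rfl⟩ := hp
  obtain ⟨C, hC, h4⟩ := TH455.TFA.mult (TH455.TFA.six_tw hB hT) q
  have hq : 3 * (q + q) = 6 * q := by ring
  refine ⟨fun i e => if e ∈ C (Fin.cast hq i) then 1 else 0, fun i v => ?_, fun e => ?_⟩
  · have h := hC (Fin.cast hq i) v
    rw [← ZMod.natCast_eq_zero_iff_even] at h
    refine Eq.trans ?_ h
    push_cast
    rw [← sum_filter_add_sum_filter_not univ (fun e => e ∈ C (Fin.cast hq i))]
    have h1 : univ.filter (fun e => e ∈ C (Fin.cast hq i)) = C (Fin.cast hq i) := by
      ext e; simp
    rw [h1, sum_eq_zero (s := univ.filter (fun e => e ∉ C (Fin.cast hq i))), add_zero]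
    · refine sum_congr rfl fun e he => ?_
      rw [if_pos he]
    · intro e he
      rw [mem_filter] at he
      rw [if_neg he.2, ite_self, ite_self, add_zero]
  · have h1 : (univ.filter (fun i : Fin (3 * (q + q)) =>
        (if e ∈ C (Fin.cast hq i) then (1 : ZMod 2) else 0) = 1)).card =
        (univ.filter (fun i => e ∈ C i)).card := by
      refine card_bij (fun i _ => Fin.cast hq i) ?_ ?_ ?_
      · intro i hi
        rw [mem_filter] at hi ⊢
        refine ⟨mem_univ _, ?_⟩
        by_contra hcon
        have h2 := hi.2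
        rw [if_neg hcon] at h2
        exact absurd h2 (by decide)
      · intro i _ j _ hij
        exact Fin.cast_injective hq hij
      · intro i hi
        rw [mem_filter] at hi
        refine ⟨Fin.cast hq.symm i, ?_, ?_⟩
        · rw [mem_filter]
          refine ⟨mem_univ _, ?_⟩
          have h3 : Fin.cast hq (Fin.cast hq.symm i) = i := by
            ext; rfl
          rw [h3, if_pos hi.2]
        · ext; rfl
    rw [h1, h4 e]
    ring

end Pool.Agent.Results.MP_65a8f1_co.TreewidthFour
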